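import Pool.Agent.Helper879.ECD.Defs

set_option autoImplicit false

namespace Pool.Agent.Helper590.Compat

open Pool.Agent.Helper879.ECD

variable {V E : Type}

/-- `H` has two compatible circuit decompositions: two partitions `P`, `Q` of the edge set into
edge sets of circuits such that a circuit of `P` and a circuit of `Q` never share two edges at
the same vertex. -/
def HasTwoCompatible (H : MGraph V E) : Prop :=
  ∃ P Q : Set (Set E), Setoid.IsPartition P ∧ Setoid.IsPartition Q ∧
    (∀ D ∈ P, H.IsCircuit D) ∧ (∀ D ∈ Q, H.IsCircuit D) ∧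
    ∀ v, ∀ D ∈ P, ∀ D' ∈ Q, {e | e ∈ D ∧ e ∈ D' ∧ v ∈ H.ends e}.ncard ≤ 1

open Finset in
/-- the number of vertices of a circuit is the number of its edges -/
theorem card_verts [Fintype V] [Fintype E] [DecidableEq V] [DecidableEq E] (H : MGraph V E)
    (D : Finset E)
    (hdeg : ∀ e ∈ D, ∀ x ∈ H.ends e, (D.filter (fun f => x ∈ H.ends f)).card = 2) :
    (univ.filter (fun x : V => ∃ e ∈ D, x ∈ H.ends e)).card = D.card := by
  classical
  have h5 := Finset.sum_card_bipartiteAbove_eq_sum_card_bipartiteBelow
    (s := D) (t := univ.filter (fun x : V => ∃ e ∈ D, x ∈ H.ends e)) (fun f x => x ∈ H.ends f)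
  have h6 : ∀ f ∈ D, (Finset.bipartiteAbove (fun f x => x ∈ H.ends f)
      (univ.filter (fun x : V => ∃ e ∈ D, x ∈ H.ends e)) f).card = 2 := by
    intro f hf
    obtain ⟨x, y, hxy⟩ : ∃ x y, H.ends f = s(x, y) := by
      induction h : H.ends f with
      | _ x y => exact ⟨x, y, rfl⟩
    have hne : x ≠ y := by
      intro h
      apply H.loopless f
      rw [hxy, h]; exact Sym2.mk_isDiag_iff.2 rfl
    rw [Finset.card_eq_two]
    refine ⟨x, y, hne, ?_⟩
    ext z
    simp only [Finset.mem_bipartiteAbove, Finset.mem_filter, Finset.mem_univ, true_and,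
      Finset.mem_insert, Finset.mem_singleton]
    constructor
    · rintro ⟨_, h⟩
      rwa [hxy, Sym2.mem_iff] at h
    · intro h
      have hz : z ∈ H.ends f := by rw [hxy, Sym2.mem_iff]; exact h
      exact ⟨⟨f, hf, hz⟩, hz⟩
  have h7 : ∀ x ∈ univ.filter (fun x : V => ∃ e ∈ D, x ∈ H.ends e),
      (Finset.bipartiteBelow (fun f x => x ∈ H.ends f) D x).card = 2 := by
    intro x hx
    obtain ⟨e, he, hxe⟩ := (Finset.mem_filter.1 hx).2
    exact hdeg e he x hxe
  rw [Finset.sum_congr rfl h6, Finset.sum_congr rfl h7, Finset.sum_const, Finset.sum_const] at h5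
  simp only [smul_eq_mul] at h5
  omega

open Finset in
/-- every even circuit contains a set of edges covering each of its vertices exactly once -/
theorem exists_half [Fintype V] [Fintype E] [DecidableEq V] [DecidableEq E] (H : MGraph V E)
    (D : Finset E)
    (hdeg : ∀ e ∈ D, ∀ x ∈ H.ends e, (D.filter (fun f => x ∈ H.ends f)).card = 2)
    (hconn : ∀ e ∈ D, ∀ f ∈ D, Relation.ReflTransGen
      (fun a b => a ∈ D ∧ b ∈ D ∧ ∃ x, x ∈ H.ends a ∧ x ∈ H.ends b) e f)
    (heven : Even D.card) :
    ∃ M : Finset E, M ⊆ D ∧ ∀ e ∈ D, ∀ x ∈ H.ends e,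
      (M.filter (fun f => x ∈ H.ends f)).card = 1 := by
  classical
  -- the linear map
  let A : (E → ZMod 2) →ₗ[ZMod 2] (V → ZMod 2) :=
    { toFun := fun c x => ∑ e ∈ D.filter (fun f => x ∈ H.ends f), c e
      map_add' := by
        intro c c'
        funext x
        simp only [Pi.add_apply, Finset.sum_add_distrib]
      map_smul' := by
        intro a c
        funext x
        simp only [Pi.smul_apply, smul_eq_mul, Finset.mul_sum, RingHom.id_apply] }
  have hA : ∀ c x, A c x = ∑ e ∈ D.filter (fun f => x ∈ H.ends f), c e := fun _ _ => rfl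
  let VD : Finset V := univ.filter (fun x : V => ∃ e ∈ D, x ∈ H.ends e)
  let b : V → ZMod 2 := fun x => if x ∈ VD then 1 else 0
  have hVD : VD.card = D.card := card_verts H D hdeg
  have hb : b ∈ LinearMap.range A := by
    by_contra hb
    obtain ⟨f, hf1, hf2⟩ := Submodule.exists_dual_map_eq_bot_of_notMem hb inferInstance
    have hf3 : ∀ c, f (A c) = 0 := by
      intro c
      have : f (A c) ∈ Submodule.map f (LinearMap.range A) :=
        Submodule.mem_map_of_mem (LinearMap.mem_range_self A c)
      rw [hf2] at this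
      exact (Submodule.mem_bot _).1 this
    let w : V → ZMod 2 := fun x => f (Pi.single x 1)
    have hfw : ∀ g : V → ZMod 2, f g = ∑ x, g x * w x := by
      intro g
      have hg : g = ∑ x, g x • (Pi.single x (1 : ZMod 2) : V → ZMod 2) := by
        funext y
        rw [Finset.sum_apply]
        simp [Pi.single_apply]
      conv_lhs => rw [hg]
      rw [map_sum]
      refine Finset.sum_congr rfl fun x _ => ?_
      rw [map_smul, smul_eq_mul]
    have hwe : ∀ e ∈ D, ∀ x ∈ H.ends e, ∀ y ∈ H.ends e, w x = w y := by
      intro e he x hx y hy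
      by_cases hxy : x = y
      · rw [hxy]
      have hends : H.ends e = s(x, y) := by
        exact (Sym2.mem_and_mem_iff hxy).1 ⟨hx, hy⟩
      have h1 : A (Pi.single e 1) = Pi.single x 1 + Pi.single y 1 := by
        funext z
        rw [hA, Pi.add_apply]
        by_cases hz : z ∈ H.ends e
        · have hsum : ∑ e' ∈ D.filter (fun f => z ∈ H.ends f), (Pi.single e (1 : ZMod 2) : E → ZMod 2) e' = 1 := by
            rw [Finset.sum_eq_single e]
            · simp
            · intro e' _ hne
              simp [Pi.single_apply, hne]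
            · intro h
              exact absurd (Finset.mem_filter.2 ⟨he, hz⟩) h
          rw [hsum]
          rw [hends, Sym2.mem_iff] at hz
          rcases hz with rfl | rfl
          · simp [Pi.single_apply, hxy]
          · simp [Pi.single_apply, Ne.symm hxy]
        · have hsum : ∑ e' ∈ D.filter (fun f => z ∈ H.ends f), (Pi.single e (1 : ZMod 2) : E → ZMod 2) e' = 0 := by
            apply Finset.sum_eq_zero
            intro e' he'
            have : e' ≠ e := by
              rintro rfl
              exact hz (Finset.mem_filter.1 he').2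
            simp [Pi.single_apply, this]
          rw [hsum]
          rw [hends, Sym2.mem_iff] at hz
          push Not at hz
          simp [Pi.single_apply, hz.1, hz.2]
      have h2 := hf3 (Pi.single e 1)
      rw [h1, map_add] at h2
      have h3 : w x + w y = 0 := h2
      have h4 : ∀ a b : ZMod 2, a + b = 0 → a = b := by decide
      exact h4 _ _ h3
    have hconst : ∀ e ∈ D, ∀ e' ∈ D, ∀ x ∈ H.ends e, ∀ y ∈ H.ends e', w x = w y := by
      intro e he e' he' x hx
      have h1 := hconn e he e' he'
      clear he'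
      induction h1 with
      | refl => exact fun y hy => hwe e he x hx y hy
      | @tail a c _ hac ih =>
        intro y hy
        obtain ⟨ha, hc, z, hz1, hz2⟩ := hac
        rw [ih z hz1]
        exact hwe c hc z hz2 y hy
    apply hf1
    rw [hfw]
    have h1 : ∑ x, b x * w x = ∑ x ∈ VD, w x := by
      rw [← Finset.sum_filter_add_sum_filter_not univ (fun x => x ∈ VD)]
      have h2 : ∑ x ∈ univ.filter (fun x => ¬ x ∈ VD), b x * w x = 0 := by
        apply Finset.sum_eq_zero
        intro x hx
        have : x ∉ VD := (Finset.mem_filter.1 hx).2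
        simp only [b, this, if_false, zero_mul]
      rw [h2, add_zero]
      have h3 : univ.filter (fun x => x ∈ VD) = VD := by
        ext x; simp
      rw [h3]
      refine Finset.sum_congr rfl fun x hx => ?_
      simp only [b, hx, if_true, one_mul]
    rw [h1]
    by_cases hne : VD = ∅
    · rw [hne]; rfl
    obtain ⟨x0, hx0⟩ := Finset.nonempty_iff_ne_empty.2 hne
    obtain ⟨e0, he0, hxe0⟩ := (Finset.mem_filter.1 hx0).2
    have h2 : ∑ x ∈ VD, w x = ∑ x ∈ VD, w x0 := by
      refine Finset.sum_congr rfl fun x hx => ?_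
      obtain ⟨e, he, hxe⟩ := (Finset.mem_filter.1 hx).2
      exact hconst e he e0 he0 x hxe x0 hxe0
    rw [h2, Finset.sum_const, hVD]
    obtain ⟨k, hk⟩ := heven
    rw [hk, nsmul_eq_mul]
    push_cast
    have h3 : ((k : ZMod 2) + (k : ZMod 2)) = 0 := by
      have h4 : ∀ a : ZMod 2, a + a = 0 := by decide
      exact h4 _
    rw [h3, zero_mul]
  obtain ⟨c, hc⟩ := hb
  refine ⟨D.filter (fun e => c e = 1), Finset.filter_subset _ _, ?_⟩
  intro e he x hx
  have h1 : A c x = 1 := by
    rw [hc]
    have : x ∈ VD := Finset.mem_filter.2 ⟨Finset.mem_univ _, e, he, hx⟩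
    simp only [b, this, if_true]
  rw [hA] at h1
  obtain ⟨a, a', hne, haa⟩ := Finset.card_eq_two.1 (hdeg e he x hx)
  rw [haa, Finset.sum_pair hne] at h1
  have h2 : (D.filter (fun e => c e = 1)).filter (fun f => x ∈ H.ends f) =
      ({a, a'} : Finset E).filter (fun e => c e = 1) := by
    rw [← haa, Finset.filter_filter, Finset.filter_filter]
    apply Finset.filter_congr
    intro f _
    tauto
  rw [h2]
  have h3 : ∀ s t : ZMod 2, s + t = 1 → (s = 1 ∧ t ≠ 1) ∨ (s ≠ 1 ∧ t = 1) := by decide
  rcases h3 _ _ h1 with ⟨hs, ht⟩ | ⟨hs, ht⟩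
  · rw [Finset.card_eq_one]
    refine ⟨a, ?_⟩
    ext z
    simp only [Finset.mem_filter, Finset.mem_insert, Finset.mem_singleton]
    constructor
    · rintro ⟨rfl | rfl, h⟩
      · rfl
      · exact absurd h ht
    · rintro rfl
      exact ⟨Or.inl rfl, hs⟩
  · rw [Finset.card_eq_one]
    refine ⟨a', ?_⟩
    ext z
    simp only [Finset.mem_filter, Finset.mem_insert, Finset.mem_singleton]
    constructor
    · rintro ⟨rfl | rfl, h⟩
      · exact absurd h hs
      · rfl
    · rintro rfl
      exact ⟨Or.inr rfl, ht⟩

end Pool.Agent.Helper590.Compat
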