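import Pool.Agent.Helper590.Compat.Main

set_option autoImplicit false

namespace Pool.Agent.Helper590.Compat

open Pool.Agent.Helper879.ECD

variable {V E : Type}

theorem line_deg_at [Finite V] [Finite E] (G : MGraph V E) (hc : G.IsCubic) (e : E) (v : V)
    (hv : v ∈ G.ends e) :
    ∃ p q : G.LineEdge, p ≠ q ∧ p.1.1 = v ∧ q.1.1 = v ∧
      ∀ r : G.LineEdge, (r.1.1 = v ∧ e ∈ r.1.2) ↔ (r = p ∨ r = q) := by
  classical
  obtain ⟨a, b, c, hab, hac, hbc, habc⟩ := Set.ncard_eq_three.1 (hc v)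
  have hmem : ∀ f, v ∈ G.ends f ↔ f = a ∨ f = b ∨ f = c := by
    intro f
    have : f ∈ {e | v ∈ G.ends e} ↔ f ∈ ({a, b, c} : Set E) := by rw [habc]
    simpa using this
  obtain ⟨f, g, hef, heg, hfg, hmem'⟩ : ∃ f g, e ≠ f ∧ e ≠ g ∧ f ≠ g ∧
      ∀ h, v ∈ G.ends h ↔ h = e ∨ h = f ∨ h = g := by
    rcases (hmem e).1 hv with rfl | rfl | rfl
    · exact ⟨b, c, hab, hac, hbc, hmem⟩
    · exact ⟨a, c, Ne.symm hab, hbc, hac, fun h => by rw [hmem]; tauto⟩
    · exact ⟨a, b, Ne.symm hac, Ne.symm hbc, hab, fun h => by rw [hmem]; tauto⟩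
  have hp : ∀ h, h ≠ e → v ∈ G.ends h → (¬ (s(e, h) : Sym2 E).IsDiag ∧
      ∀ e' ∈ (s(e, h) : Sym2 E), v ∈ G.ends e') := by
    intro h hh hvh
    refine ⟨fun hd => hh (Sym2.mk_isDiag_iff.1 hd).symm, ?_⟩
    intro e' he'
    rcases Sym2.mem_iff.1 he' with rfl | rfl
    · exact hv
    · exact hvh
  refine ⟨⟨(v, s(e, f)), hp f (Ne.symm hef) ((hmem' f).2 (Or.inr (Or.inl rfl)))⟩,
    ⟨(v, s(e, g)), hp g (Ne.symm heg) ((hmem' g).2 (Or.inr (Or.inr rfl)))⟩, ?_, rfl, rfl, ?_⟩
  · intro h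
    have h1 : (s(e, f) : Sym2 E) = s(e, g) := congrArg (fun r : G.LineEdge => r.1.2) h
    rcases Sym2.eq_iff.1 h1 with ⟨_, h2⟩ | ⟨h2, _⟩
    · exact hfg h2
    · exact heg h2
  · intro r
    constructor
    · rintro ⟨h1, h2⟩
      obtain ⟨h, hh⟩ := Sym2.mem_iff_exists.1 h2
      have h3 : v ∈ G.ends h := by
        rw [← h1]
        apply r.2.2
        rw [hh]
        exact Sym2.mem_mk_right e h
      have h4 : h ≠ e := by
        rintro rfl
        apply r.2.1
        rw [hh]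
        exact Sym2.mk_isDiag_iff.2 rfl
      rcases (hmem' h).1 h3 with h5 | h5 | h5
      · exact absurd h5 h4
      · left
        apply Subtype.ext
        apply Prod.ext
        · exact h1
        · rw [hh, h5]
      · right
        apply Subtype.ext
        apply Prod.ext
        · exact h1
        · rw [hh, h5]
    · rintro (rfl | rfl)
      · exact ⟨rfl, Sym2.mem_mk_left e f⟩
      · exact ⟨rfl, Sym2.mem_mk_left e g⟩

/-- the line graph of a cubic graph is 4-regular -/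
theorem line_deg [Finite V] [Finite E] (G : MGraph V E) (hc : G.IsCubic) (e : E) :
    {p : G.LineEdge | e ∈ G.lineGraph.ends p}.ncard = 4 := by
  classical
  obtain ⟨x, y, hxy⟩ : ∃ x y, G.ends e = s(x, y) := by
    induction h : G.ends e with
    | _ x y => exact ⟨x, y, rfl⟩
  have hne : x ≠ y := by
    intro h
    apply G.loopless e
    rw [hxy, h]; exact Sym2.mk_isDiag_iff.2 rfl
  obtain ⟨p, q, hpq, hp, hq, hpq'⟩ := line_deg_at G hc e x (by rw [hxy]; exact Sym2.mem_mk_left _ _)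
  obtain ⟨r, s, hrs, hr, hs, hrs'⟩ := line_deg_at G hc e y (by rw [hxy]; exact Sym2.mem_mk_right _ _)
  have hset : {t : G.LineEdge | e ∈ G.lineGraph.ends t} =
      (({p, q, r, s} : Finset G.LineEdge) : Set G.LineEdge) := by
    ext t
    simp only [Set.mem_ofPred_eq, Finset.coe_insert, Finset.coe_singleton, Set.mem_insert_iff,
      Set.mem_singleton_iff]
    constructor
    · intro ht
      have ht' : e ∈ t.1.2 := ht
      have h1 : t.1.1 ∈ G.ends e := t.2.2 e ht'
      rw [hxy, Sym2.mem_iff] at h1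
      rcases h1 with h1 | h1
      · rcases (hpq' t).1 ⟨h1, ht'⟩ with h | h
        · exact Or.inl h
        · exact Or.inr (Or.inl h)
      · rcases (hrs' t).1 ⟨h1, ht'⟩ with h | h
        · exact Or.inr (Or.inr (Or.inl h))
        · exact Or.inr (Or.inr (Or.inr h))
    · rintro (h | h | h | h)
      · exact ((hpq' t).2 (Or.inl h)).2
      · exact ((hpq' t).2 (Or.inr h)).2
      · exact ((hrs' t).2 (Or.inl h)).2
      · exact ((hrs' t).2 (Or.inr h)).2
  rw [hset, Set.ncard_coe_finset]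
  have hd : ∀ t u : G.LineEdge, t.1.1 = x → u.1.1 = y → t ≠ u := by
    intro t u ht hu h
    apply hne
    rw [← ht, ← hu, h]
  rw [Finset.card_insert_of_notMem, Finset.card_insert_of_notMem, Finset.card_pair hrs]
  · simp only [Finset.mem_insert, Finset.mem_singleton, not_or]
    exact ⟨hd q r hq hr, hd q s hq hs⟩
  · simp only [Finset.mem_insert, Finset.mem_singleton, not_or]
    exact ⟨hpq, hd p r hp hr, hd p s hp hs⟩

end Pool.Agent.Helper590.Compat
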