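import Pool.Agent.Helper590.Compat.Basic

set_option autoImplicit false

namespace Pool.Agent.Helper590.Compat

open Pool.Agent.Helper879.ECD

variable {V E : Type}

/-- a colouring of the edges in which every colour class is regular of degree two gives a
decomposition into monochromatic circuits -/
theorem circuits_of_colouring {K : Type} [Finite V] [Finite E] (H : MGraph V E) (κ : E → K)
    (h1 : ∀ e, ∀ x ∈ H.ends e, {f | x ∈ H.ends f ∧ κ f = κ e}.ncard = 2) :
    ∃ P : Set (Set E), Setoid.IsPartition P ∧ (∀ D ∈ P, H.IsCircuit D) ∧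
      ∀ D ∈ P, ∀ e ∈ D, ∀ f ∈ D, κ e = κ f := by
  classical
  let rel : E → E → Prop := fun a b => κ a = κ b ∧ ∃ x, x ∈ H.ends a ∧ x ∈ H.ends b
  have hsymm : ∀ a b, rel a b → rel b a := fun a b ⟨h, x, hx, hy⟩ => ⟨h.symm, x, hy, hx⟩
  let S : Setoid E :=
    { r := Relation.ReflTransGen rel
      iseqv := ⟨fun _ => Relation.ReflTransGen.refl, fun h => by
        induction h with
        | refl => exact Relation.ReflTransGen.refl
        | tail _ h ih => exact Relation.ReflTransGen.head (hsymm _ _ h) ih,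
        fun h h' => h.trans h'⟩ }
  have hκ : ∀ a b, Relation.ReflTransGen rel a b → κ a = κ b := by
    intro a b h
    induction h with
    | refl => rfl
    | tail _ h ih => exact ih.trans h.1
  refine ⟨S.classes, Setoid.isPartition_classes S, ?_, ?_⟩
  · rintro D ⟨e0, rfl⟩
    have hDk : ∀ f, f ∈ {x | S x e0} → κ f = κ e0 := fun f hf => hκ _ _ hf
    have hdeg : ∀ e ∈ {x | S x e0}, ∀ x ∈ H.ends e,
        {f | f ∈ {x | S x e0} ∧ x ∈ H.ends f}.ncard = 2 := by
      intro e he x hx
      rw [← h1 e x hx]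
      congr 1
      ext f
      constructor
      · rintro ⟨hf, hxf⟩
        exact ⟨hxf, (hDk f hf).trans (hDk e he).symm⟩
      · rintro ⟨hxf, hkf⟩
        exact ⟨Relation.ReflTransGen.head ⟨hkf, x, hxf, hx⟩ he, hxf⟩
    refine ⟨⟨e0, Relation.ReflTransGen.refl⟩, hdeg, ?_⟩
    intro e he f hf
    have hef : Relation.ReflTransGen rel e f := by
      have h3 : Relation.ReflTransGen rel e e0 := he
      have h4 : Relation.ReflTransGen rel f e0 := hf
      exact h3.trans (S.iseqv.symm h4)
    clear hf
    have key : ∀ g, Relation.ReflTransGen rel e g → g ∈ {x | S x e0} ∧ Relation.ReflTransGen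
        (fun a b => a ∈ {x | S x e0} ∧ b ∈ {x | S x e0} ∧ ∃ x, x ∈ H.ends a ∧ x ∈ H.ends b)
        e g := by
      intro g hg
      induction hg with
      | refl => exact ⟨he, Relation.ReflTransGen.refl⟩
      | @tail b c _ hbc ih =>
        have hc : c ∈ {x | S x e0} := Relation.ReflTransGen.head (hsymm _ _ hbc) ih.1
        exact ⟨hc, ih.2.tail ⟨ih.1, hc, hbc.2⟩⟩
    exact (key f hef).2
  · rintro D ⟨e0, rfl⟩ e he f hf
    exact (hκ _ _ he).trans (hκ _ _ hf).symm

open Finset in
/-- a 4-regular multigraph with a decomposition into even circuits has a second circuit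
decomposition compatible with it -/
theorem exists_compatible [Finite V] [Finite E] (H : MGraph V E)
    (h4 : ∀ v, {e | v ∈ H.ends e}.ncard = 4) (P : Set (Set E)) (hP : Setoid.IsPartition P)
    (hPc : ∀ D ∈ P, H.IsCircuit D ∧ Even D.ncard) :
    ∃ Q : Set (Set E), Setoid.IsPartition Q ∧ (∀ D ∈ Q, H.IsCircuit D) ∧
      ∀ v, ∀ D ∈ P, ∀ D' ∈ Q, {e | e ∈ D ∧ e ∈ D' ∧ v ∈ H.ends e}.ncard ≤ 1 := by
  classical
  have := Fintype.ofFinite V
  have := Fintype.ofFinite E
  -- the halves
  have hhalf : ∀ D ∈ P, ∃ M : Set E, M ⊆ D ∧ ∀ e ∈ D, ∀ x ∈ H.ends e,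
      {f | f ∈ M ∧ x ∈ H.ends f}.ncard = 1 := by
    intro D hD
    obtain ⟨⟨hne, hdeg, hconn⟩, heven⟩ := hPc D hD
    have hDf : ∀ e, e ∈ D.toFinset ↔ e ∈ D := fun e => Set.mem_toFinset
    obtain ⟨M, hM1, hM2⟩ := exists_half H D.toFinset
      (by
        intro e he x hx
        rw [← hdeg e ((hDf e).1 he) x hx, ← Set.ncard_coe_finset]
        congr 1
        ext f
        simp)
      (by
        intro e he f hf
        have h := hconn e ((hDf e).1 he) f ((hDf f).1 hf)
        clear hf
        induction h with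
        | refl => exact Relation.ReflTransGen.refl
        | tail _ hab ih =>
          obtain ⟨ha, hb, hx⟩ := hab
          exact ih.tail ⟨(hDf _).2 ha, (hDf _).2 hb, hx⟩)
      (by
        rw [← Set.ncard_eq_toFinset_card']
        exact heven)
    refine ⟨M, fun e he => (hDf e).1 (hM1 he), ?_⟩
    intro e he x hx
    rw [← hM2 e ((hDf e).2 he) x hx, ← Set.ncard_coe_finset]
    congr 1
    ext f
    simp
  choose! M hMD hM1 using hhalf
  -- the circuit of an edge
  have hcirc : ∀ e, ∃ D, D ∈ P ∧ e ∈ D ∧ ∀ D', D' ∈ P → e ∈ D' → D' = D := by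
    intro e
    obtain ⟨D, ⟨hD1, hD2⟩, hD3⟩ := hP.2 e
    exact ⟨D, hD1, hD2, fun D' h1 h2 => hD3 D' ⟨h1, h2⟩⟩
  choose C hC1 hC2 hC3 using hcirc
  -- the colouring
  let κ : E → Bool := fun e => decide (e ∈ M (C e))
  -- counting at a vertex
  have hfib : ∀ v e, v ∈ H.ends e →
      (univ.filter (fun f => v ∈ H.ends f ∧ C f = C e)).card = 2 := by
    intro v e hve
    rw [← (hPc (C e) (hC1 e)).1.2.1 e (hC2 e) v hve, ← Set.ncard_coe_finset]
    congr 1
    ext f
    simp only [coe_filter, mem_univ, true_and, Set.mem_ofPred_eq]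
    constructor
    · rintro ⟨h1, h2⟩
      exact ⟨h2 ▸ hC2 f, h1⟩
    · rintro ⟨h1, h2⟩
      exact ⟨h2, (hC3 f _ (hC1 e) h1).symm⟩
  have hfibM : ∀ v e, v ∈ H.ends e →
      (univ.filter (fun f => (v ∈ H.ends f ∧ κ f = true) ∧ C f = C e)).card = 1 := by
    intro v e hve
    rw [← hM1 (C e) (hC1 e) e (hC2 e) v hve, ← Set.ncard_coe_finset]
    congr 1
    ext f
    simp only [coe_filter, mem_univ, true_and, Set.mem_ofPred_eq, κ, decide_eq_true_eq]
    constructor
    · rintro ⟨⟨h1, h2⟩, h3⟩
      exact ⟨h3 ▸ h2, h1⟩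
    · rintro ⟨h1, h2⟩
      have h3 : C f = C e := (hC3 f _ (hC1 e) (hMD _ (hC1 e) h1)).symm
      exact ⟨⟨h2, h3 ▸ h1⟩, h3⟩
  have hcount : ∀ v, (univ.filter (fun f => v ∈ H.ends f)).card = 4 := by
    intro v
    rw [← h4 v, ← Set.ncard_coe_finset]
    congr 1
    ext f
    simp
  let I : V → Finset (Set E) := fun v => (univ.filter (fun f => v ∈ H.ends f)).image C
  have hI : ∀ v, (I v).card = 2 := by
    intro v
    have h1 := Finset.card_eq_sum_card_image C (univ.filter (fun f => v ∈ H.ends f))
    have h2 : ∀ D ∈ (univ.filter (fun f => v ∈ H.ends f)).image C,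
        ((univ.filter (fun f => v ∈ H.ends f)).filter (fun f => C f = D)).card = 2 := by
      intro D hD
      obtain ⟨e, he, rfl⟩ := Finset.mem_image.1 hD
      rw [Finset.filter_filter]
      exact hfib v e (Finset.mem_filter.1 he).2
    rw [Finset.sum_congr rfl h2, Finset.sum_const, hcount v, smul_eq_mul] at h1
    show ((univ.filter (fun f => v ∈ H.ends f)).image C).card = 2
    omega
  have htrue : ∀ v, (univ.filter (fun f => v ∈ H.ends f ∧ κ f = true)).card = 2 := by
    intro v
    have h1 : (univ.filter (fun f => v ∈ H.ends f ∧ κ f = true)).card =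
        ∑ D ∈ I v, ((univ.filter (fun f => v ∈ H.ends f ∧ κ f = true)).filter
          (fun f => C f = D)).card := by
      apply Finset.card_eq_sum_card_fiberwise
      intro f hf
      have hf' := (Finset.mem_filter.1 (Finset.mem_coe.1 hf)).2
      exact Finset.mem_coe.2 (Finset.mem_image.2 ⟨f, Finset.mem_filter.2
        ⟨Finset.mem_univ _, hf'.1⟩, rfl⟩)
    have h2 : ∀ D ∈ I v, ((univ.filter (fun f => v ∈ H.ends f ∧ κ f = true)).filter
          (fun f => C f = D)).card = 1 := by
      intro D hD
      obtain ⟨e, he, rfl⟩ := Finset.mem_image.1 hD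
      rw [Finset.filter_filter]
      exact hfibM v e (Finset.mem_filter.1 he).2
    rw [h1, Finset.sum_congr rfl h2, Finset.sum_const, hI v, smul_eq_mul]
  have hfalse : ∀ v, (univ.filter (fun f => v ∈ H.ends f ∧ κ f = false)).card = 2 := by
    intro v
    have h1 := Finset.card_filter_add_card_filter_not
      (s := univ.filter (fun f => v ∈ H.ends f)) (p := fun f => κ f = true)
    rw [Finset.filter_filter, Finset.filter_filter, hcount v, htrue v] at h1
    have h2 : (univ.filter (fun f => v ∈ H.ends f ∧ κ f = false)) =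
        (univ.filter (fun f => v ∈ H.ends f ∧ ¬ κ f = true)) := by
      apply Finset.filter_congr
      intro f _
      rw [Bool.not_eq_true]
    rw [h2]
    omega
  obtain ⟨Q, hQ1, hQ2, hQ3⟩ := circuits_of_colouring H κ (by
    intro e x hx
    have h1 : {f | x ∈ H.ends f ∧ κ f = κ e} =
        ((univ.filter (fun f => x ∈ H.ends f ∧ κ f = κ e) : Finset E) : Set E) := by
      ext f; simp
    rw [h1, Set.ncard_coe_finset]
    cases κ e with
    | true => exact htrue x
    | false => exact hfalse x)
  refine ⟨Q, hQ1, hQ2, ?_⟩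
  intro v D hD D' hD'
  rw [Set.ncard_le_one (Set.toFinite _)]
  rintro a ⟨ha1, ha2, ha3⟩ b ⟨hb1, hb2, hb3⟩
  by_contra hab
  have hCa : C a = D := (hC3 a D hD ha1).symm
  have hCb : C b = D := (hC3 b D hD hb1).symm
  have hκ : κ a = κ b := hQ3 D' hD' a ha2 b hb2
  have h1 : (univ.filter (fun f => v ∈ H.ends f ∧ C f = C a)).card = 2 := hfib v a ha3
  have h2 : (univ.filter (fun f => (v ∈ H.ends f ∧ κ f = true) ∧ C f = C a)).card = 1 :=
    hfibM v a ha3
  have h3 : ({a, b} : Finset E) ⊆ univ.filter (fun f => v ∈ H.ends f ∧ C f = C a) := by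
    intro f hf
    rw [Finset.mem_insert, Finset.mem_singleton] at hf
    rw [Finset.mem_filter]
    rcases hf with rfl | rfl
    · exact ⟨Finset.mem_univ _, ha3, rfl⟩
    · exact ⟨Finset.mem_univ _, hb3, hCb.trans hCa.symm⟩
  have h4' : ({a, b} : Finset E) = univ.filter (fun f => v ∈ H.ends f ∧ C f = C a) := by
    apply Finset.eq_of_subset_of_card_le h3
    rw [h1, Finset.card_pair hab]
  have h5 : univ.filter (fun f => (v ∈ H.ends f ∧ κ f = true) ∧ C f = C a) =
      ({a, b} : Finset E).filter (fun f => κ f = true) := by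
    rw [h4', Finset.filter_filter]
    apply Finset.filter_congr
    intro f _
    tauto
  rw [h5] at h2
  cases hka : κ a with
  | true =>
    have hkb : κ b = true := by rw [← hκ, hka]
    have h6 : ({a, b} : Finset E).filter (fun f => κ f = true) = {a, b} := by
      apply Finset.filter_true_of_mem
      intro f hf
      rw [Finset.mem_insert, Finset.mem_singleton] at hf
      rcases hf with rfl | rfl
      · exact hka
      · exact hkb
    rw [h6, Finset.card_pair hab] at h2
    omega
  | false =>
    have hkb : κ b = false := by rw [← hκ, hka]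
    have h6 : ({a, b} : Finset E).filter (fun f => κ f = true) = ∅ := by
      apply Finset.filter_false_of_mem
      intro f hf
      rw [Finset.mem_insert, Finset.mem_singleton] at hf
      rcases hf with rfl | rfl
      · rw [hka]; decide
      · rw [hkb]; decide
    rw [h6, Finset.card_empty] at h2
    omega

end Pool.Agent.Helper590.Compat
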